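import Mathlib

/-!
# Project GH (helper14), package ABL: the core (Mathlib only)

Partial summation from the weight `log p` to the weight `1`.
-/

set_option autoImplicit false

namespace Pool.Agent.P8H52.GH

open Finset Filter

/-- `log n` at the primes -/
noncomputable def th0 (n : ℕ) : ℝ := if n.Prime then Real.log n else 0

/-- growth of the logarithm -/
lemma grow (A : ℕ) : ∃ T₀ : ℕ, 2 ≤ T₀ ∧ ∀ T : ℕ, T₀ ≤ T → 2 ≤ Real.log T ∧
    (2 : ℝ) + 2 ^ (A + 4) ≤ Real.log T ^ 2 ∧ Real.log T ^ (2 * (A + 2)) ≤ T := by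
  have h1 : Tendsto (fun T : ℕ => Real.log T) atTop atTop :=
    Real.tendsto_log_atTop.comp tendsto_natCast_atTop_atTop
  have h2 : ∀ᶠ T : ℕ in atTop, 2 ≤ Real.log T := h1.eventually_ge_atTop _
  have h3 : ∀ᶠ T : ℕ in atTop, (2 : ℝ) + 2 ^ (A + 4) ≤ Real.log T := h1.eventually_ge_atTop _
  have h4 : ∀ᶠ x : ℝ in atTop, ‖Real.log x ^ (2 * (A + 2))‖ ≤ 1 * ‖id x‖ :=
    (Real.isLittleO_pow_log_id_atTop (n := 2 * (A + 2))).bound one_pos
  have h5 : ∀ᶠ T : ℕ in atTop, ‖Real.log (T : ℝ) ^ (2 * (A + 2))‖ ≤ 1 * ‖id (T : ℝ)‖ :=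
    tendsto_natCast_atTop_atTop.eventually h4
  obtain ⟨T₀, hT₀⟩ := eventually_atTop.1 ((h2.and h3).and h5)
  refine ⟨max 2 T₀, le_max_left _ _, fun T hT => ?_⟩
  obtain ⟨⟨h6, h7⟩, h8⟩ := hT₀ T ((le_max_right _ _).trans hT)
  refine ⟨h6, ?_, ?_⟩
  · nlinarith
  · rw [Real.norm_eq_abs, one_mul, Real.norm_eq_abs] at h8
    refine (le_abs_self _).trans (h8.trans ?_)
    simp

theorem abl_core : ∀ A : ℕ, ∃ T₀ : ℕ, ∀ T : ℕ, T₀ ≤ T → ∀ f : ℕ → ℂ, (∀ n, ‖f n‖ ≤ 1) →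
    (∀ T' : ℕ, (T : ℝ) / Real.log T ^ (A + 2) ≤ T' → T' ≤ T + 1 →
      ‖∑ n ∈ range T', ((th0 n : ℝ) : ℂ) * f n‖ ≤ T' / Real.log T' ^ (A + 2)) →
    ‖∑ p ∈ (Icc 1 T).filter Nat.Prime, f p‖ ≤ T / Real.log T ^ A := by
  intro A
  obtain ⟨T₀, hT₀2, hT₀⟩ := grow A
  refine ⟨T₀, fun T hT f hf h => ?_⟩
  obtain ⟨hL2, hLs, hLT⟩ := hT₀ T hT
  have hT2 : 2 ≤ T := hT₀2.trans hT
  have hT2R : (2 : ℝ) ≤ T := by exact_mod_cast hT2
  set L := Real.log T with hL
  have hL0 : 0 < L := by linarith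
  set D := L ^ (A + 2) with hD
  have hD0 : 0 < D := by positivity
  have hD4 : 4 ≤ D := by
    have h1 : L ^ 2 ≤ L ^ (A + 2) := pow_le_pow_right₀ (by linarith) (by omega)
    nlinarith
  have hDD : D * D ≤ T := by
    have : D * D = L ^ (2 * (A + 2)) := by rw [hD]; ring
    rw [this]; exact hLT
  set Y := (T : ℝ) / D with hY
  have hYD : D ≤ Y := by rw [hY, le_div_iff₀ hD0]; exact hDD
  have hY4 : 4 ≤ Y := hD4.trans hYD
  have hYsq : (T : ℝ) ≤ Y ^ 2 := by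
    have h1 : (T : ℝ) = Y * D := by rw [hY]; field_simp
    rw [h1]; nlinarith
  set M := ⌈Y⌉₊ with hM
  have hYM : Y ≤ M := Nat.le_ceil Y
  have hMY : (M : ℝ) ≤ Y + 1 := (Nat.ceil_lt_add_one (by linarith)).le
  have hM0 : (0 : ℝ) < M := by linarith
  have hM4 : 4 ≤ M := by exact_mod_cast (hY4.trans hYM)
  have hlogM : L / 2 ≤ Real.log M := by
    have h1 : Real.log T ≤ Real.log (Y ^ 2) := Real.log_le_log (by linarith) hYsq
    rw [Real.log_pow] at h1
    have h2 : Real.log Y ≤ Real.log M := Real.log_le_log (by linarith) hYM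
    push_cast at h1
    rw [hL]; linarith
  have hMT : (M : ℝ) ≤ 2 * Y := by linarith
  have hMT2 : 2 * (M : ℝ) ≤ T := by
    have h1 : (T : ℝ) = Y * D := by rw [hY]; field_simp
    rw [h1]; nlinarith
  have hMTn : 2 * M ≤ T := by exact_mod_cast hMT2
  -- splitting
  have hsp : (Icc 1 T).filter Nat.Prime = (Icc 1 M).filter Nat.Prime ∪ (Ico (M + 1) (T + 1)).filter Nat.Prime := by
    ext p
    simp only [mem_filter, mem_union, mem_Icc, mem_Ico]
    constructor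
    · rintro ⟨⟨h1, h2⟩, h3⟩
      by_cases h4 : p ≤ M
      · exact Or.inl ⟨⟨h1, h4⟩, h3⟩
      · exact Or.inr ⟨⟨by omega, by omega⟩, h3⟩
    · rintro (⟨⟨h1, h2⟩, h3⟩ | ⟨⟨h1, h2⟩, h3⟩)
      · exact ⟨⟨h1, by omega⟩, h3⟩
      · exact ⟨⟨by omega, by omega⟩, h3⟩
  have hdis : Disjoint ((Icc 1 M).filter Nat.Prime) ((Ico (M + 1) (T + 1)).filter Nat.Prime) := by
    rw [Finset.disjoint_left]
    intro p hp hp'
    simp only [mem_filter, mem_Icc, mem_Ico] at hp hp'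
    omega
  rw [hsp, Finset.sum_union hdis]
  have hfirst : ‖∑ p ∈ (Icc 1 M).filter Nat.Prime, f p‖ ≤ M := by
    calc ‖∑ p ∈ (Icc 1 M).filter Nat.Prime, f p‖ ≤ ∑ p ∈ (Icc 1 M).filter Nat.Prime, ‖f p‖ := norm_sum_le _ _
      _ ≤ ∑ p ∈ (Icc 1 M).filter Nat.Prime, (1 : ℝ) := Finset.sum_le_sum fun p _ => hf p
      _ ≤ ∑ p ∈ Icc 1 M, (1 : ℝ) :=
          Finset.sum_le_sum_of_subset_of_nonneg (Finset.filter_subset _ _) (fun _ _ _ => zero_le_one)
      _ = M := by simp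
  -- Abel summation
  set g : ℕ → ℂ := fun n => ((th0 n : ℝ) : ℂ) * f n with hg
  set u : ℕ → ℝ := fun n => (Real.log n)⁻¹ with hu
  have hsec : ∑ p ∈ (Ico (M + 1) (T + 1)).filter Nat.Prime, f p = ∑ n ∈ Ico (M + 1) (T + 1), u n • g n := by
    rw [Finset.sum_filter]
    apply Finset.sum_congr rfl
    intro n hn
    simp only [mem_Ico] at hn
    have hln : Real.log n ≠ 0 := by
      have : 0 < Real.log n := Real.log_pos (by exact_mod_cast (by omega : 1 < n))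
      exact this.ne'
    by_cases hp : n.Prime
    · simp only [hu, hg, th0, if_pos hp]
      rw [Complex.real_smul, ← mul_assoc, ← Complex.ofReal_mul, inv_mul_cancel₀ hln, Complex.ofReal_one, one_mul]
    · simp [hu, hg, th0, hp]
  set B : ℝ := (T + 1 : ℝ) / (L / 2) ^ (A + 2) with hB
  have hB0 : 0 ≤ B := by positivity
  have hG : ∀ T' : ℕ, M ≤ T' → T' ≤ T + 1 → ‖∑ n ∈ range T', g n‖ ≤ B := by
    intro T' h1 h2
    have h1R : (M : ℝ) ≤ T' := by exact_mod_cast h1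
    have h2R : (T' : ℝ) ≤ T + 1 := by exact_mod_cast h2
    refine (h T' (hYM.trans h1R) h2).trans ?_
    rw [hB]
    have h3 : L / 2 ≤ Real.log T' := hlogM.trans (Real.log_le_log hM0 h1R)
    have h4 : (L / 2) ^ (A + 2) ≤ Real.log T' ^ (A + 2) := pow_le_pow_left₀ (by positivity) h3 _
    exact div_le_div₀ (by positivity) h2R (by positivity) h4
  have hpart := Finset.sum_Ico_by_parts u g (m := M + 1) (n := T + 1) (by omega)
  rw [hsec, hpart]
  have hT1 : T + 1 - 1 = T := by omega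
  rw [hT1]
  have hu0 : ∀ n : ℕ, 2 ≤ n → 0 ≤ u n := by
    intro n hn
    simp only [hu]
    exact inv_nonneg.2 (Real.log_natCast_nonneg n)
  have hua : ∀ n : ℕ, 2 ≤ n → u (n + 1) ≤ u n := by
    intro n hn
    simp only [hu]
    have h1 : 0 < Real.log n := Real.log_pos (by exact_mod_cast (by omega : 1 < n))
    have h2 : Real.log n ≤ Real.log ((n + 1 : ℕ) : ℝ) :=
      Real.log_le_log (by exact_mod_cast (by omega : 0 < n)) (by push_cast; linarith)
    exact inv_anti₀ h1 h2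
  have htel : ∑ i ∈ Ico (M + 1) T, (u i - u (i + 1)) = u (M + 1) - u T := by
    have := Finset.sum_Ico_sub u (m := M + 1) (n := T) (by omega)
    have h2 : ∑ i ∈ Ico (M + 1) T, (u i - u (i + 1)) = - ∑ i ∈ Ico (M + 1) T, (u (i + 1) - u i) := by
      rw [← Finset.sum_neg_distrib]
      exact Finset.sum_congr rfl fun i _ => by ring
    rw [h2, this]; ring
  have hthird : ‖∑ i ∈ Ico (M + 1) T, (u (i + 1) - u i) • ∑ j ∈ range (i + 1), g j‖ ≤ (u (M + 1) - u T) * B := by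
    calc ‖∑ i ∈ Ico (M + 1) T, (u (i + 1) - u i) • ∑ j ∈ range (i + 1), g j‖
        ≤ ∑ i ∈ Ico (M + 1) T, ‖(u (i + 1) - u i) • ∑ j ∈ range (i + 1), g j‖ := norm_sum_le _ _
      _ ≤ ∑ i ∈ Ico (M + 1) T, (u i - u (i + 1)) * B := by
          apply Finset.sum_le_sum
          intro i hi
          simp only [mem_Ico] at hi
          rw [norm_smul, Real.norm_eq_abs, abs_sub_comm]
          have h1 := hua i (by omega)
          rw [abs_of_nonneg (by linarith)]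
          exact mul_le_mul_of_nonneg_left (hG (i + 1) (by omega) (by omega)) (by linarith)
      _ = (u (M + 1) - u T) * B := by rw [← Finset.sum_mul, htel]
  have hfst : ‖u T • ∑ i ∈ range (T + 1), g i‖ ≤ u T * B := by
    rw [norm_smul, Real.norm_eq_abs, abs_of_nonneg (hu0 T hT2)]
    exact mul_le_mul_of_nonneg_left (hG (T + 1) (by omega) le_rfl) (hu0 T hT2)
  have hsnd : ‖u (M + 1) • ∑ i ∈ range (M + 1), g i‖ ≤ u (M + 1) * B := by
    rw [norm_smul, Real.norm_eq_abs, abs_of_nonneg (hu0 (M + 1) (by omega))]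
    exact mul_le_mul_of_nonneg_left (hG (M + 1) (by omega) (by omega)) (hu0 (M + 1) (by omega))
  have huM : u (M + 1) ≤ 1 := by
    simp only [hu]
    have h1 : 1 ≤ Real.log ((M + 1 : ℕ) : ℝ) := by
      have h2 : Real.log M ≤ Real.log ((M + 1 : ℕ) : ℝ) := Real.log_le_log hM0 (by push_cast; linarith)
      linarith
    exact inv_le_one_of_one_le₀ h1
  have hsec2 : ‖u T • ∑ i ∈ range (T + 1), g i - u (M + 1) • ∑ i ∈ range (M + 1), g i -
      ∑ i ∈ Ico (M + 1) T, (u (i + 1) - u i) • ∑ j ∈ range (i + 1), g j‖ ≤ 2 * B := by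
    refine (norm_sub_le _ _).trans ?_
    have := norm_sub_le (u T • ∑ i ∈ range (T + 1), g i) (u (M + 1) • ∑ i ∈ range (M + 1), g i)
    nlinarith [mul_le_mul_of_nonneg_right huM hB0]
  refine (norm_add_le _ _).trans ?_
  refine (add_le_add hfirst hsec2).trans ?_
  -- numerics
  have hBD : B ≤ 2 ^ (A + 3) * Y := by
    rw [hB, hY, div_pow, hD]
    have h1 : (T + 1 : ℝ) / (L ^ (A + 2) / 2 ^ (A + 2)) = (T + 1) * 2 ^ (A + 2) / L ^ (A + 2) := by
      field_simp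
    rw [h1, mul_div_assoc']
    apply div_le_div_of_nonneg_right _ (by positivity)
    have h2 : (2 : ℝ) ^ (A + 3) = 2 * 2 ^ (A + 2) := by ring
    rw [h2]
    have h3 : (0 : ℝ) < 2 ^ (A + 2) := by positivity
    nlinarith
  have hfin : (T : ℝ) / L ^ A = Y * L ^ 2 := by
    rw [hY, hD, pow_add]; field_simp
  rw [hfin]
  have h6 : (2 : ℝ) ^ (A + 4) = 2 * 2 ^ (A + 3) := by ring
  calc (M : ℝ) + 2 * B ≤ 2 * Y + 2 * (2 ^ (A + 3) * Y) := by linarith
    _ = Y * (2 + 2 ^ (A + 4)) := by rw [h6]; ring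
    _ ≤ Y * L ^ 2 := mul_le_mul_of_nonneg_left hLs (by linarith)

end Pool.Agent.P8H52.GH
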