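import Mathlib

/-!
# Project GH (helper14), package RGC: the core (Mathlib only)

Sums of a completely multiplicative function over the integers without small prime factors.
-/

set_option autoImplicit false

namespace Pool.Agent.P8H52.GH

open Finset

/-- the largest prime factor -/
def lp (n : ℕ) : ℕ := n.primeFactors.sup id

lemma lp_mem {n : ℕ} (h : 2 ≤ n) : lp n ∈ n.primeFactors := by
  have hne : n.primeFactors.Nonempty := Nat.nonempty_primeFactors.2 (by omega)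
  obtain ⟨p, hp, hp'⟩ := Finset.exists_mem_eq_sup _ hne id
  have h1 : lp n = p := hp'
  rw [h1]
  exact hp

lemma le_lp {n p : ℕ} (h : p ∈ n.primeFactors) : p ≤ lp n := Finset.le_sup (f := id) h

lemma lp_le {n b : ℕ} (h : ∀ p ∈ n.primeFactors, p ≤ b) : lp n ≤ b := Finset.sup_le (f := id) h

lemma lp_mono {m n : ℕ} (h : m ∣ n) (hn : n ≠ 0) : lp m ≤ lp n :=
  lp_le fun _ hp => le_lp (Nat.primeFactors_mono h hn hp)

/-- the sum over the primes of an interval -/
lemma prime_Ioc (f : ℕ → ℂ) (Z N : ℕ) (E : ℝ) (hE : 0 ≤ E)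
    (h : ∀ T, Z ≤ T → T ≤ N → ‖∑ p ∈ (Icc 1 T).filter Nat.Prime, f p‖ ≤ E * T) (a b : ℕ)
    (ha : Z ≤ a) (hb : b ≤ N) :
    ‖∑ p ∈ (Ioc a b).filter Nat.Prime, f p‖ ≤ 2 * E * b := by
  rcases le_or_gt b a with hba | hab
  · rw [Finset.Ioc_eq_empty (by omega)]
    simp
    positivity
  · have hsp : (Icc 1 b).filter Nat.Prime = (Icc 1 a).filter Nat.Prime ∪ (Ioc a b).filter Nat.Prime := by
      ext p
      simp only [mem_filter, mem_union, mem_Icc, mem_Ioc]
      constructor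
      · rintro ⟨⟨h1, h2⟩, h3⟩
        by_cases h4 : p ≤ a
        · exact Or.inl ⟨⟨h1, h4⟩, h3⟩
        · exact Or.inr ⟨⟨by omega, h2⟩, h3⟩
      · rintro (⟨⟨h1, h2⟩, h3⟩ | ⟨⟨h1, h2⟩, h3⟩)
        · exact ⟨⟨h1, by omega⟩, h3⟩
        · exact ⟨⟨by omega, h2⟩, h3⟩
    have hdis : Disjoint ((Icc 1 a).filter Nat.Prime) ((Ioc a b).filter Nat.Prime) := by
      rw [Finset.disjoint_left]
      intro p hp hp'
      simp only [mem_filter, mem_Icc, mem_Ioc] at hp hp'
      omega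
    have hsum := Finset.sum_union hdis (f := f)
    rw [← hsp] at hsum
    have heq : ∑ p ∈ (Ioc a b).filter Nat.Prime, f p =
        (∑ p ∈ (Icc 1 b).filter Nat.Prime, f p) - ∑ p ∈ (Icc 1 a).filter Nat.Prime, f p := by
      rw [hsum]; ring
    rw [heq]
    have h1 := h b (by omega) hb
    have h2 := h a ha (by omega)
    have h3 : (a : ℝ) ≤ b := by exact_mod_cast hab.le
    have h4 := norm_sub_le (∑ p ∈ (Icc 1 b).filter Nat.Prime, f p) (∑ p ∈ (Icc 1 a).filter Nat.Prime, f p)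
    nlinarith [mul_le_mul_of_nonneg_left h3 hE]

/-- the fibre over `m` -/
lemma fibre (f : ℕ → ℂ) (hmul : ∀ m n, f (m * n) = f m * f n) (Z y m : ℕ) (hm1 : 1 ≤ m)
    (hm : ∀ p ∈ m.primeFactors, Z < p) :
    ∑ n ∈ ((Icc 2 y).filter (fun n => ∀ p ∈ n.primeFactors, Z < p)).filter (fun n => n / lp n = m), f n =
      f m * ∑ p ∈ (Ioc (max Z (lp m - 1)) (y / m)).filter Nat.Prime, f p := by
  rw [Finset.mul_sum]
  refine Finset.sum_nbij' (fun n => lp n) (fun p => m * p) ?_ ?_ ?_ ?_ ?_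
  · intro n hn
    simp only [mem_filter, mem_Icc] at hn
    obtain ⟨⟨⟨hn2, hny⟩, hr⟩, hd⟩ := hn
    have hl := lp_mem hn2
    have hlp := Nat.prime_of_mem_primeFactors hl
    have hdv := Nat.dvd_of_mem_primeFactors hl
    have hmn : m * lp n = n := by rw [← hd]; exact Nat.div_mul_cancel hdv
    simp only [mem_filter, mem_Ioc]
    refine ⟨⟨?_, ?_⟩, hlp⟩
    · refine max_lt (hr _ hl) ?_
      have h1 : lp m ≤ lp n := lp_mono ⟨lp n, hmn.symm⟩ (by omega)
      have h2 := hlp.pos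
      omega
    · rw [Nat.le_div_iff_mul_le (by omega)]
      rw [mul_comm, hmn]; exact hny
  · intro p hp
    simp only [mem_filter, mem_Ioc] at hp
    obtain ⟨⟨hp1, hp2⟩, hpp⟩ := hp
    have h1 := hpp.two_le
    have h2 : Z < p := lt_of_le_of_lt (le_max_left _ _) hp1
    have h3 : lp m - 1 < p := lt_of_le_of_lt (le_max_right _ _) hp1
    have hpf : (m * p).primeFactors = m.primeFactors ∪ {p} := by
      rw [Nat.primeFactors_mul (by omega) (by omega), hpp.primeFactors]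
    have hlp : lp (m * p) = p := by
      apply le_antisymm
      · apply lp_le
        intro r hr
        rw [hpf, mem_union, mem_singleton] at hr
        rcases hr with hr | hr
        · have := le_lp hr
          omega
        · omega
      · apply le_lp
        rw [hpf]; simp
    simp only [mem_filter, mem_Icc]
    refine ⟨⟨⟨?_, ?_⟩, ?_⟩, ?_⟩
    · nlinarith
    · rw [Nat.le_div_iff_mul_le (by omega)] at hp2
      rw [mul_comm]; exact hp2
    · intro r hr
      rw [hpf, mem_union, mem_singleton] at hr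
      rcases hr with hr | hr
      · exact hm r hr
      · rw [hr]; exact h2
    · rw [hlp]; exact Nat.mul_div_cancel m hpp.pos
  · intro n hn
    simp only [mem_filter, mem_Icc] at hn
    obtain ⟨⟨⟨hn2, hny⟩, hr⟩, hd⟩ := hn
    have hdv := Nat.dvd_of_mem_primeFactors (lp_mem hn2)
    rw [← hd]; exact Nat.div_mul_cancel hdv
  · intro p hp
    simp only [mem_filter, mem_Ioc] at hp
    obtain ⟨⟨hp1, hp2⟩, hpp⟩ := hp
    have h1 := hpp.two_le
    have h3 : lp m - 1 < p := lt_of_le_of_lt (le_max_right _ _) hp1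
    have hpf : (m * p).primeFactors = m.primeFactors ∪ {p} := by
      rw [Nat.primeFactors_mul (by omega) (by omega), hpp.primeFactors]
    apply le_antisymm
    · apply lp_le
      intro r hr
      rw [hpf, mem_union, mem_singleton] at hr
      rcases hr with hr | hr
      · have := le_lp hr
        omega
      · omega
    · apply le_lp
      rw [hpf]; simp
  · intro n hn
    simp only [mem_filter, mem_Icc] at hn
    obtain ⟨⟨⟨hn2, hny⟩, hr⟩, hd⟩ := hn
    have hdv := Nat.dvd_of_mem_primeFactors (lp_mem hn2)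
    have hmn : m * lp n = n := by rw [← hd]; exact Nat.div_mul_cancel hdv
    rw [← hmul, hmn]

theorem rgc_core (f : ℕ → ℂ) (hmul : ∀ m n, f (m * n) = f m * f n) (hf : ∀ n, ‖f n‖ ≤ 1) (Z N : ℕ)
    (E : ℝ) (hE : 0 ≤ E)
    (h : ∀ T, Z ≤ T → T ≤ N → ‖∑ p ∈ (Icc 1 T).filter Nat.Prime, f p‖ ≤ E * T) (y : ℕ) (hy : y ≤ N) :
    ‖∑ n ∈ (Icc 1 y).filter (fun n => ∀ p ∈ n.primeFactors, Z < p), f n‖ ≤
      1 + 2 * E * N * (1 + Real.log N) := by
  rcases Nat.eq_zero_or_pos y with hy0 | hy0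
  · subst hy0
    simp
    have : 0 ≤ Real.log N := Real.log_natCast_nonneg N
    positivity
  have hN0 : 0 < N := lt_of_lt_of_le hy0 hy
  set R2 := (Icc 2 y).filter (fun n => ∀ p ∈ n.primeFactors, Z < p) with hR2
  set R1 := (Icc 1 y).filter (fun n => ∀ p ∈ n.primeFactors, Z < p) with hR1
  have h12 : R1 = insert 1 R2 := by
    ext n
    simp only [hR1, hR2, mem_filter, mem_Icc, mem_insert]
    constructor
    · rintro ⟨⟨h1, h2⟩, h3⟩
      by_cases h4 : n = 1
      · exact Or.inl h4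
      · exact Or.inr ⟨⟨by omega, h2⟩, h3⟩
    · rintro (h1 | ⟨⟨h1, h2⟩, h3⟩)
      · subst h1; simp; omega
      · exact ⟨⟨by omega, h2⟩, h3⟩
  have h1n : (1 : ℕ) ∉ R2 := by simp [hR2]
  have hmaps : ∀ n ∈ R2, n / lp n ∈ R1 := by
    intro n hn
    simp only [hR2, mem_filter, mem_Icc] at hn
    obtain ⟨⟨hn2, hny⟩, hr⟩ := hn
    have hl := lp_mem hn2
    have hlp := Nat.prime_of_mem_primeFactors hl
    have hdv := Nat.dvd_of_mem_primeFactors hl
    simp only [hR1, mem_filter, mem_Icc]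
    refine ⟨⟨Nat.div_pos (Nat.le_of_dvd (by omega) hdv) hlp.pos, (Nat.div_le_self _ _).trans hny⟩, ?_⟩
    intro p hp
    exact hr p (Nat.primeFactors_mono (Nat.div_dvd_of_dvd hdv) (by omega) hp)
  have hS2 : ∑ n ∈ R2, f n = ∑ m ∈ R1, ∑ n ∈ R2.filter (fun n => n / lp n = m), f n :=
    (Finset.sum_fiberwise_of_maps_to hmaps _).symm
  have hbd : ∀ m ∈ R1, ‖∑ n ∈ R2.filter (fun n => n / lp n = m), f n‖ ≤ 2 * E * y * (m : ℝ)⁻¹ := by
    intro m hm
    simp only [hR1, mem_filter, mem_Icc] at hm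
    obtain ⟨⟨hm1, hm2⟩, hm3⟩ := hm
    rw [fibre f hmul Z y m hm1 hm3, norm_mul]
    have h1 := prime_Ioc f Z N E hE h (max Z (lp m - 1)) (y / m) (le_max_left _ _)
      ((Nat.div_le_self _ _).trans hy)
    have h2 : ((y / m : ℕ) : ℝ) ≤ (y : ℝ) / m := Nat.cast_div_le
    have h3 := hf m
    have h4 : 0 ≤ ‖∑ p ∈ (Ioc (max Z (lp m - 1)) (y / m)).filter Nat.Prime, f p‖ := norm_nonneg _
    calc ‖f m‖ * ‖∑ p ∈ (Ioc (max Z (lp m - 1)) (y / m)).filter Nat.Prime, f p‖
        ≤ 1 * ‖∑ p ∈ (Ioc (max Z (lp m - 1)) (y / m)).filter Nat.Prime, f p‖ :=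
          mul_le_mul_of_nonneg_right h3 h4
      _ ≤ 2 * E * ((y / m : ℕ) : ℝ) := by rw [one_mul]; exact h1
      _ ≤ 2 * E * ((y : ℝ) / m) := by
          apply mul_le_mul_of_nonneg_left h2; positivity
      _ = 2 * E * y * (m : ℝ)⁻¹ := by rw [div_eq_mul_inv]; ring
  rw [h12, Finset.sum_insert h1n]
  have hyR : (y : ℝ) ≤ N := by exact_mod_cast hy
  have hy1 : (1 : ℝ) ≤ y := by exact_mod_cast hy0
  have hlog : Real.log y ≤ Real.log N := Real.log_le_log (by linarith) hyR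
  have hlog0 : 0 ≤ Real.log y := Real.log_nonneg hy1
  have hharm : ∑ m ∈ Icc 1 y, (m : ℝ)⁻¹ ≤ 1 + Real.log y := by
    have h1 := harmonic_le_one_add_log y
    rw [harmonic_eq_sum_Icc] at h1
    push_cast at h1
    exact h1
  have h2 : ‖∑ n ∈ R2, f n‖ ≤ 2 * E * N * (1 + Real.log N) := by
    rw [hS2]
    calc ‖∑ m ∈ R1, ∑ n ∈ R2.filter (fun n => n / lp n = m), f n‖
        ≤ ∑ m ∈ R1, ‖∑ n ∈ R2.filter (fun n => n / lp n = m), f n‖ := norm_sum_le _ _
      _ ≤ ∑ m ∈ R1, 2 * E * y * (m : ℝ)⁻¹ := Finset.sum_le_sum hbd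
      _ ≤ ∑ m ∈ Icc 1 y, 2 * E * y * (m : ℝ)⁻¹ := by
          apply Finset.sum_le_sum_of_subset_of_nonneg (Finset.filter_subset _ _)
          intro i _ _
          positivity
      _ = 2 * E * y * ∑ m ∈ Icc 1 y, (m : ℝ)⁻¹ := by rw [Finset.mul_sum]
      _ ≤ 2 * E * y * (1 + Real.log y) := by
          apply mul_le_mul_of_nonneg_left hharm; positivity
      _ ≤ 2 * E * N * (1 + Real.log N) := by
          apply mul_le_mul
          · apply mul_le_mul_of_nonneg_left hyR; positivity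
          · linarith
          · linarith
          · positivity
  calc ‖f 1 + ∑ n ∈ R2, f n‖ ≤ ‖f 1‖ + ‖∑ n ∈ R2, f n‖ := norm_add_le _ _
    _ ≤ 1 + 2 * E * N * (1 + Real.log N) := add_le_add (hf 1) h2

end Pool.Agent.P8H52.GH
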