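import Pool.Agent.P8H14.GH.Stm
import Pool.Agent.P8H52.GH.RgcCore
import Pool.Agent.P8H52.GH.AblCore

/-!
# Project GH (helper14), packages RGC and ABL
-/

set_option autoImplicit false

namespace Pool.Agent.P8H52.GH

open Finset
open Pool.Agent.P8H14.GH (pc S_RGC S_ABL)
open Pool.Agent.R460.GS (GG ZZ gr)

theorem rgc : S_RGC := by
  intro N E d ψ hZ hE h y hy
  have hcore := rgc_core (fun n => ψ (n : ZMod d)) (fun m n => by push_cast; exact map_mul ψ _ _)
    (fun n => ψ.norm_le_one _) (ZZ N) N E hE (fun T h1 h2 => h T h1 h2) y hy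
  have hsum : ∑ n ∈ Icc 1 y, GG N n * ψ (n : ZMod d) = ((Real.log N : ℝ) : ℂ) *
      ∑ n ∈ (Icc 1 y).filter (fun n => ∀ p ∈ n.primeFactors, ZZ N < p), ψ (n : ZMod d) := by
    rw [Finset.sum_filter, Finset.mul_sum]
    apply Finset.sum_congr rfl
    intro n _
    unfold GG gr
    split_ifs <;> simp
  rw [hsum, norm_mul, Complex.norm_real, Real.norm_eq_abs, abs_of_nonneg (Real.log_natCast_nonneg N)]
  exact mul_le_mul_of_nonneg_left hcore (Real.log_natCast_nonneg N)

theorem abl : S_ABL := by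
  intro A
  obtain ⟨T₀, hT₀⟩ := abl_core A
  refine ⟨T₀, fun T hT d ψ h => ?_⟩
  exact hT₀ T hT (fun n => ψ (n : ZMod d)) (fun n => ψ.norm_le_one _) (fun T' h1 h2 => h T' h1 h2)

end Pool.Agent.P8H52.GH
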